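import Pool.Agent.Helper95.Lin.Basics

/-! # Packet DFL -/

open Complex Metric Set Filter Topology MeasureTheory
open scoped ContDiff ComplexConjugate ComplexOrder

namespace Pool.Agent.Helper36.Lin

open Pool.Agent.Helper95.Lin

variable {b : ℕ} {D : Set (Cn b)}

/-- Uniform first order expansion of the flow on a compact set. -/
theorem flow_unif {W : Cn b → Cn b} {ψ : ℝ → Cn b → Cn b}
    (hW : DifferentiableOn ℂ W D) (hψ : IsFlow D W ψ) {K : Set (Cn b)} (hK : IsCompact K)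
    (hKD : K ⊆ D) (s : ℝ) {ε : ℝ} (hε : 0 < ε) :
    ∃ δ > 0, ∀ h : ℝ, |h| < δ → ∀ y ∈ K, ‖ψ (s + h) y - ψ s y - h • W (ψ s y)‖ ≤ ε * |h| := by
  have hcont : ContinuousOn (fun p : ℝ × Cn b => W (ψ p.1 p.2)) (Icc (s - 1) (s + 1) ×ˢ K) := by
    apply hW.continuousOn.comp (hψ.cont.mono (prod_mono (subset_univ _) hKD))
    rintro ⟨r, y⟩ ⟨_, hy⟩
    exact hψ.maps r y (hKD hy)
  have huc := (isCompact_Icc.prod hK).uniformContinuousOn_of_continuous hcont
  rw [Metric.uniformContinuousOn_iff] at huc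
  obtain ⟨δ, hδ, hδ'⟩ := huc ε hε
  refine ⟨min δ 1, by positivity, fun h hh y hy => ?_⟩
  have hh1 : |h| < δ := hh.trans_le (min_le_left _ _)
  have hh2 : |h| < 1 := hh.trans_le (min_le_right _ _)
  have hder : ∀ r ∈ uIcc s (s + h), HasDerivWithinAt
      (fun r => ψ r y - (r - s) • W (ψ s y)) (W (ψ r y) - W (ψ s y)) (uIcc s (s + h)) r := by
    intro r _
    have h1 := hψ.ode y (hKD hy) r
    have h2 : HasDerivAt (fun r : ℝ => (r - s) • W (ψ s y)) (W (ψ s y)) r := by
      simpa using ((hasDerivAt_id r).sub_const s).smul_const (W (ψ s y))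
    exact (h1.sub h2).hasDerivWithinAt
  have hbd : ∀ r ∈ uIcc s (s + h), ‖W (ψ r y) - W (ψ s y)‖ ≤ ε := by
    intro r hr
    have hr' : |r - s| ≤ |h| := by
      have := abs_sub_left_of_mem_uIcc hr
      simpa using this
    have hr2 := abs_le.1 hr'
    rw [← dist_eq_norm]
    refine (hδ' (r, y) ⟨⟨by linarith [hr2.1], by linarith [hr2.2]⟩, hy⟩ (s, y)
      ⟨⟨by linarith, by linarith⟩, hy⟩ ?_).le
    rw [Prod.dist_eq, dist_self, Real.dist_eq]
    exact max_lt (hr'.trans_lt hh1) hδ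
  have := (convex_uIcc s (s + h)).norm_image_sub_le_of_norm_hasDerivWithin_le hder hbd
    left_mem_uIcc right_mem_uIcc
  simp only [add_sub_cancel_left, sub_self, zero_smul, sub_zero, Real.norm_eq_abs] at this
  rwa [sub_right_comm] at this

/-- The derivative of the flow satisfies the linearized equation. -/
theorem flow_fderiv (hD : IsOpen D) {W : Cn b → Cn b} {ψ : ℝ → Cn b → Cn b}
    (hW : DifferentiableOn ℂ W D) (hψ : IsFlow D W ψ) {z : Cn b} (hz : z ∈ D) (s : ℝ) :
    HasDerivAt (fun s => fderiv ℂ (ψ s) z) (fderiv ℂ W (ψ s z) ∘L fderiv ℂ (ψ s) z) s := by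
  obtain ⟨ρ, hρ, hρD⟩ := Metric.nhds_basis_closedBall.mem_iff.1 (hD.mem_nhds hz)
  rw [hasDerivAt_iff_isLittleO_nhds_zero, Asymptotics.isLittleO_iff]
  intro c hc
  obtain ⟨δ, hδ, hδ'⟩ := flow_unif hW hψ (isCompact_closedBall z ρ) hρD s
    (ε := c * (ρ / 2)) (by positivity)
  filter_upwards [Metric.ball_mem_nhds (0 : ℝ) hδ] with h hh
  rw [mem_ball_zero_iff, Real.norm_eq_abs] at hh
  have hdiff : ∀ r, ∀ y ∈ D, DifferentiableAt ℂ (ψ r) y := fun r y hy =>
    (hψ.holo r y hy).differentiableAt (hD.mem_nhds hy)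
  have hWψ : ∀ y ∈ D, DifferentiableAt ℂ (fun y => W (ψ s y)) y := fun y hy =>
    ((hW _ (hψ.maps s y hy)).differentiableAt (hD.mem_nhds (hψ.maps s y hy))).comp y
      (hdiff s y hy)
  have hfd : fderiv ℂ (fun y => ψ (s + h) y - ψ s y - h • W (ψ s y)) z =
      fderiv ℂ (ψ (s + h)) z - fderiv ℂ (ψ s) z - h • (fderiv ℂ W (ψ s z) ∘L
        fderiv ℂ (ψ s) z) := by
    have h1 := (hdiff (s + h) z hz).hasFDerivAt
    have h2 := (hdiff s z hz).hasFDerivAt
    have h3 : HasFDerivAt W (fderiv ℂ W (ψ s z)) (ψ s z) :=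
      ((hW _ (hψ.maps s z hz)).differentiableAt (hD.mem_nhds (hψ.maps s z hz))).hasFDerivAt
    have h4 := h3.comp z h2
    exact ((h1.sub h2).sub (h4.const_smul h)).fderiv
  have h2ρ : 2 * (ρ / 2) = ρ := by ring
  have hb := Pool.Agent.Helper8.Abund.norm_fderiv_le_of_bound
    (f := fun y => ψ (s + h) y - ψ s y - h • W (ψ s y)) (w := z) (r := ρ / 2)
    (M := c * (ρ / 2) * |h|) (by positivity) (by
      intro y hy
      rw [h2ρ] at hy
      have hy' : y ∈ D := hρD (ball_subset_closedBall hy)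
      exact (((hdiff (s + h) y hy').sub (hdiff s y hy')).sub
        ((hWψ y hy').const_smul h)).differentiableWithinAt) (by
      intro y hy
      rw [h2ρ] at hy
      exact hδ' h hh y (ball_subset_closedBall hy))
  rw [hfd] at hb
  rw [Real.norm_eq_abs]
  refine hb.trans (le_of_eq ?_)
  field_simp

/-- Packet DFL. -/
theorem dfl : S_DFL := by
  intro b D hD V W ψ hV hW hψ hbr s z hz
  -- the linear equation
  set A : ℝ → Cn b →L[ℂ] Cn b := fun s => fderiv ℂ W (ψ s z) with hA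
  have hmem : ∀ s, ψ s z ∈ D := fun s => hψ.maps s z hz
  have hcurve : Continuous fun s => ψ s z :=
    continuous_iff_continuousAt.2 fun s => (hψ.ode z hz s).continuousAt
  have hAc : Continuous A := by
    have h1 : ContinuousOn (fderiv ℂ W) D := (holo_fderiv hD hW).continuousOn
    exact h1.comp_continuous hcurve hmem
  have hu : ∀ s, HasDerivAt (fun s => V (ψ s z)) (A s (V (ψ s z))) s := by
    intro s
    have h1 : HasFDerivAt V (fderiv ℂ V (ψ s z)) (ψ s z) :=
      ((hV _ (hmem s)).differentiableAt (hD.mem_nhds (hmem s))).hasFDerivAt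
    have h2 := (h1.restrictScalars ℝ).comp_hasDerivAt s (hψ.ode z hz s)
    have h3 : fderiv ℂ V (ψ s z) (W (ψ s z)) = A s (V (ψ s z)) := by
      have := hbr _ (hmem s)
      rw [brV, sub_eq_zero] at this
      exact this.symm
    rw [← h3]
    exact h2
  have hw : ∀ s, HasDerivAt (fun s => fderiv ℂ (ψ s) z (V z)) (A s (fderiv ℂ (ψ s) z (V z))) s := by
    intro s
    have h1 := flow_fderiv hD hW hψ hz s
    exact ((ContinuousLinearMap.apply ℂ (Cn b) (V z)).restrictScalars ℝ).hasFDerivAt.comp_hasDerivAt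
      s h1
  -- uniqueness
  have h0 : V (ψ 0 z) = fderiv ℂ (ψ 0) z (V z) := by
    have h1 : ψ 0 =ᶠ[𝓝 z] id := by
      filter_upwards [hD.mem_nhds hz] with y hy
      exact hψ.zero y hy
    rw [h1.fderiv_eq, fderiv_id, hψ.zero z hz]
    rfl
  have hT : s ∈ Ioo (-(|s| + 1)) (|s| + 1) := by
    constructor
    · linarith [neg_abs_le s]
    · linarith [le_abs_self s]
  obtain ⟨C, hC⟩ := isCompact_Icc.exists_bound_of_continuousOn
    (f := A) (s := Icc (-(|s| + 1)) (|s| + 1)) hAc.continuousOn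
  have huniq := ODE_solution_unique_of_mem_Ioo (v := fun t y => A t y) (s := fun _ => univ)
    (K := C.toNNReal) (a := -(|s| + 1)) (b := |s| + 1) (t₀ := 0)
    (f := fun s => V (ψ s z)) (g := fun s => fderiv ℂ (ψ s) z (V z)) (by
      intro t ht
      apply LipschitzWith.lipschitzOnWith
      refine ((A t).lipschitz).weaken ?_
      rw [← norm_toNNReal]
      exact Real.toNNReal_le_toNNReal (hC t ⟨ht.1.le, ht.2.le⟩)) (by
      constructor <;> linarith [abs_nonneg s])
    (fun t _ => ⟨hu t, mem_univ _⟩) (fun t _ => ⟨hw t, mem_univ _⟩) h0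
  exact huniq hT

end Pool.Agent.Helper36.Lin
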