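import Pool.Agent.Helper95.Lin.GoalsA
import Pool.Agent.Helper95.Lin.GoalsG
import Pool.Agent.Helper36.Lin.Dfl

/-! # Packet FWD -/

open Complex Metric Set Filter Topology MeasureTheory
open scoped ContDiff ComplexConjugate ComplexOrder

namespace Pool.Agent.Helper36.Lin

open Pool.Agent.Helper95.Lin

variable {b : ℕ} {D : Set (Cn b)}

/-- The flow law. -/
theorem flow_add (hD : IsOpen D) {W : Cn b → Cn b} {ψ : ℝ → Cn b → Cn b}
    (hW : DifferentiableOn ℂ W D) (hψ : IsFlow D W ψ) {p : Cn b} (hp : p ∈ D) (s r : ℝ) :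
    ψ r (ψ s p) = ψ (r + s) p := by
  have hcurve : ∀ q ∈ D, Continuous fun r => ψ r q := fun q hq =>
    continuous_iff_continuousAt.2 fun s => (hψ.ode q hq s).continuousAt
  have hq := hψ.maps s p hp
  have hc1 : Continuous fun r => ψ r (ψ s p) := hcurve _ hq
  have hc2 : Continuous fun r => ψ (r + s) p := (hcurve p hp).comp (by fun_prop)
  have hclosed : IsClosed {r | ψ r (ψ s p) = ψ (r + s) p} := isClosed_eq hc1 hc2
  have hopen : IsOpen {r | ψ r (ψ s p) = ψ (r + s) p} := by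
    rw [isOpen_iff_mem_nhds]
    intro r₀ hr₀
    have hmem := hψ.maps r₀ _ hq
    have hcd : ContDiffAt ℝ 1 W (ψ r₀ (ψ s p)) :=
      ((holo_contDiffOn_real hD hW).contDiffAt (hD.mem_nhds hmem)).of_le (by simp)
    obtain ⟨K, t, ht, hLip⟩ := hcd.exists_lipschitzOnWith
    have h2 : ψ (r₀ + s) p ∈ D := hψ.maps _ _ hp
    have hr₀' : ψ r₀ (ψ s p) = ψ (r₀ + s) p := hr₀
    have ht2 : t ∈ 𝓝 (ψ (r₀ + s) p) := by rwa [← hr₀']
    have hev1 : ∀ᶠ r in 𝓝 r₀, ψ r (ψ s p) ∈ t := hc1.continuousAt.eventually_mem ht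
    have hev2 : ∀ᶠ r in 𝓝 r₀, ψ (r + s) p ∈ t :=
      (hc2.continuousAt (x := r₀)).eventually_mem ht2
    have := ODE_solution_unique_of_eventually (v := fun _ y => W y) (s := fun _ => t) (K := K)
      (t₀ := r₀) (f := fun r => ψ r (ψ s p)) (g := fun r => ψ (r + s) p)
      (Eventually.of_forall fun _ => hLip)
      (hev1.mono fun r hr => ⟨hψ.ode _ hq r, hr⟩)
      (hev2.mono fun r hr => ⟨by
        have := (hψ.ode p hp (r + s)).scomp r ((hasDerivAt_id r).add_const s)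
        rw [one_smul] at this
        exact this, hr⟩) hr₀
    exact this
  have huniv := IsClopen.eq_univ ⟨hclosed, hopen⟩ ⟨0, by
    show ψ 0 (ψ s p) = ψ (0 + s) p
    rw [hψ.zero _ hq, zero_add]⟩
  have : r ∈ {r | ψ r (ψ s p) = ψ (r + s) p} := by rw [huniv]; trivial
  exact this

/-- Sums of multiples of generators are generators. -/
theorem inL_sum {Γ : Type} [Group Γ] {g : Γ → Cn b → Cn b} (hadd : S_LADD) (hg : HAct D g)
    {ι : Type} (t : Finset ι) (V : ι → Cn b → Cn b) (v : ι → ℝ) (hV : ∀ i, InL D g (V i)) :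
    InL D g (fun y => ∑ i ∈ t, v i • V i y) := by
  classical
  obtain ⟨h0, h1, h2⟩ := hadd hg
  have : InL D g (∑ i ∈ t, v i • V i) := by
    induction t using Finset.induction_on with
    | empty => rw [Finset.sum_empty]; exact h0
    | insert i t hi ih =>
      rw [Finset.sum_insert hi]
      exact h1 _ _ (h2 _ (hV i) _) ih
  convert this using 1
  ext y
  simp

/-- Packet FWD. -/
theorem fwd : S_MAXSOL → S_FLOWEX → S_LADD → S_PSI → S_CAREX → S_EXTR → S_LOWER → S_EXTIME →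
    S_STRIP → S_FWD := by
  intro hmaxsol hflowex hladd hpsi hcarex hextr hlower hextime hstrip
  intro b D Γ _ g m V A hg hA hpos hmean v z hz
  have hDo : IsOpen D := hg.dom.isOpen
  have hVd : ∀ i, DifferentiableOn ℂ (V i) D := fun i => (hA.inL i).1
  set U : Cn b → Cn b := fun y => ∑ i, v i • V i y with hUdef
  have hU : InL D g U := inL_sum hladd hg Finset.univ V v hA.inL
  have hUd : DifferentiableOn ℂ U D := hU.1
  obtain ⟨φ, hφ⟩ := hflowex hg U hU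
  have hIU : DifferentiableOn ℂ (fun y => I • U y) D := hUd.const_smul I
  rcases hmaxsol D hDo (fun y => I • U y) hIU z hz with h | ⟨T, hT, x, hx0, hx, hmax⟩
  · exact h
  exfalso
  obtain ⟨K, hKD, hK, hKcoc⟩ := hg.coc
  obtain ⟨f, hf, hfz⟩ := hcarex D hg.dom V hVd z hz
  have hfe := hextr D hg.dom V hVd hpos hmean f hf z hz hfz
  obtain ⟨c, hc, hlow⟩ := hlower hg hA f hf hfe hpos K hKD hK
  obtain ⟨c', hc', htime⟩ := hextime hg hA K hKD hK
  have hxD : ∀ t ∈ Ioo 0 T, x t ∈ D ∧ HasDerivAt x (I • U (x t)) t := by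
    intro t ht
    obtain ⟨h1, h2⟩ := hx t ⟨ht.1.le, ht.2⟩
    exact ⟨h1, h2.hasDerivAt (Ici_mem_nhds ht.1)⟩
  have hΨ := hpsi D hDo U φ hUd hφ (Ioo 0 T) isOpen_Ioo x hxD
  have hΨD : ∀ ζ : ℂ, 0 < ζ.im → ζ.im < T → φ ζ.re (x ζ.im) ∈ D := fun ζ h1 h2 =>
    hφ.maps _ _ (hxD _ ⟨h1, h2⟩).1
  have hder : ∀ j, ∀ ζ : ℂ, 0 < ζ.im → ζ.im < T → HasDerivAt (fun ζ : ℂ => f j (φ ζ.re (x ζ.im)))
      (fderiv ℂ (f j) (φ ζ.re (x ζ.im)) (U (φ ζ.re (x ζ.im)))) ζ := by
    intro j ζ h1 h2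
    have h3 := hΨD ζ h1 h2
    exact (((hf j).1 _ h3).differentiableAt (hDo.mem_nhds h3)).hasFDerivAt.comp_hasDerivAt ζ
      (hΨ ζ ⟨h1, h2⟩)
  refine hstrip m (fun j ζ => f j (φ ζ.re (x ζ.im))) T (c * c') hT (by positivity)
    (fun j ζ hζ => (hder j ζ hζ.1 hζ.2).differentiableAt.differentiableWithinAt)
    (fun j ζ h1 h2 => (hf j).2 _ (hΨD ζ h1 h2)) ?_
  intro ζ h1 h2
  set t := ζ.im with ht
  set s := ζ.re with hs
  obtain ⟨hpD, -⟩ := hxD t ⟨h1, h2⟩
  have hyD : φ s (x t) ∈ D := hφ.maps s _ hpD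
  obtain ⟨γ, hγ⟩ := hKcoc _ hyD
  have hTt : 0 < T - t := sub_pos.2 h2
  have hw : c' < (T - t) * ‖(A γ).mulVec v‖ := by
    by_contra hcon
    push Not at hcon
    obtain ⟨u, hu0, hu⟩ := htime _ hyD γ hγ v (T - t) hTt.le hcon
    have hsol : Sol D (fun y => I • U y) (x t) (T - t) (fun τ => φ (-s) (u τ)) := by
      refine ⟨?_, fun τ hτ => ?_⟩
      · show φ (-s) (u 0) = x t
        rw [hu0, flow_add hDo hUd hφ hpD, neg_add_cancel, hφ.zero _ hpD]
      · obtain ⟨h3, h4⟩ := hu τ hτ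
        refine ⟨hφ.maps _ _ h3, ?_⟩
        have h5 : HasFDerivAt (φ (-s)) (fderiv ℂ (φ (-s)) (u τ)) (u τ) :=
          (((hφ.holo (-s)) _ h3).differentiableAt (hDo.mem_nhds h3)).hasFDerivAt
        have h6 := (h5.restrictScalars ℝ).comp_hasDerivWithinAt τ h4
        have h7 : fderiv ℂ (φ (-s)) (u τ) (I • U (u τ)) = I • U (φ (-s) (u τ)) := by
          rw [map_smul, ← dfl D hDo U U φ hUd hUd hφ (fun z _ => by simp [brV]) (-s) _ h3]
        show HasDerivWithinAt (fun τ => φ (-s) (u τ)) (I • U (φ (-s) (u τ))) (Icc 0 (T - t)) τ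
        rw [← h7]
        exact h6
    have := hmax t ⟨h1.le, h2⟩ (T - t) hTt.le _ hsol
    linarith
  obtain ⟨j, hj⟩ := hlow _ hyD γ hγ v
  refine ⟨j, ?_⟩
  rw [(hder j ζ h1 h2).deriv]
  refine le_trans ?_ hj
  rw [div_le_iff₀ hTt]
  nlinarith

end Pool.Agent.Helper36.Lin
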