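import Pool.Agent.Helper95.Lin.GoalsH
import Pool.Agent.Helper95.Lin.Basics

/-! # Packet MDOM -/

open Complex Metric Set Filter Topology MeasureTheory
open scoped ContDiff ComplexConjugate ComplexOrder

namespace Pool.Agent.Helper36.Lin

open Pool.Agent.Helper95.Lin

variable {n : ℕ}

/-! ## Calculus of the operator -/

theorem dd_contDiff {φ : Cn n → ℝ} (h : ContDiff ℝ ∞ φ) (a : Fin n × Bool) :
    ContDiff ℝ ∞ (dd φ a) :=
  (h.fderiv_right (by simp)).clm_apply contDiff_const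

theorem dd_add {φ ψ : Cn n → ℝ} (hφ : ContDiff ℝ ∞ φ) (hψ : ContDiff ℝ ∞ ψ)
    (a : Fin n × Bool) : dd (φ + ψ) a = dd φ a + dd ψ a := by
  ext x
  simp only [dd, Pi.add_apply]
  rw [fderiv_add (hφ.differentiable (by simp) x) (hψ.differentiable (by simp) x)]
  rfl

theorem dd_smul {φ : Cn n → ℝ} (hφ : ContDiff ℝ ∞ φ) (r : ℝ) (a : Fin n × Bool) :
    dd (r • φ) a = r • dd φ a := by
  ext x
  simp only [dd, Pi.smul_apply]
  rw [fderiv_const_smul (hφ.differentiable (by simp) x)]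
  rfl

theorem dd_congr {φ ψ : Cn n → ℝ} {x : Cn n} (h : φ =ᶠ[𝓝 x] ψ) (a : Fin n × Bool) :
    dd φ a =ᶠ[𝓝 x] dd ψ a := by
  filter_upwards [h.fderiv (𝕜 := ℝ)] with y hy
  simp only [dd, hy]

theorem Lop_congr (P : Fin n × Bool → Fin n × Bool → Cn n → ℝ) {φ ψ : Cn n → ℝ} {x : Cn n}
    (h : φ =ᶠ[𝓝 x] ψ) : Lop P φ x = Lop P ψ x := by
  simp only [Lop]
  refine Finset.sum_congr rfl fun a _ => Finset.sum_congr rfl fun b _ => ?_
  rw [(dd_congr (dd_congr h b) a).eq_of_nhds]

theorem Lop_add (P : Fin n × Bool → Fin n × Bool → Cn n → ℝ) {φ ψ : Cn n → ℝ}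
    (hφ : ContDiff ℝ ∞ φ) (hψ : ContDiff ℝ ∞ ψ) (x : Cn n) :
    Lop P (φ + ψ) x = Lop P φ x + Lop P ψ x := by
  simp only [Lop, dd_add hφ hψ, dd_add (dd_contDiff hφ _) (dd_contDiff hψ _), Pi.add_apply,
    mul_add, Finset.sum_add_distrib]

theorem Lop_smul (P : Fin n × Bool → Fin n × Bool → Cn n → ℝ) {φ : Cn n → ℝ}
    (hφ : ContDiff ℝ ∞ φ) (r : ℝ) (x : Cn n) : Lop P (r • φ) x = r * Lop P φ x := by
  simp only [Lop, dd_smul hφ, dd_smul (dd_contDiff hφ _), Pi.smul_apply, smul_eq_mul,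
    Finset.mul_sum]
  refine Finset.sum_congr rfl fun a _ => Finset.sum_congr rfl fun b _ => ?_
  ring

theorem Lop_eq_zero (P : Fin n × Bool → Fin n × Bool → Cn n → ℝ) {φ : Cn n → ℝ} {x : Cn n}
    (hx : x ∉ tsupport φ) : Lop P φ x = 0 := by
  have h : φ =ᶠ[𝓝 x] (0 : Cn n → ℝ) := notMem_tsupport_iff_eventuallyEq.1 hx
  have h0 : ∀ b, dd (0 : Cn n → ℝ) b = 0 := fun b => by
    ext y
    simp [dd]
  rw [Lop_congr P h]
  simp [Lop, h0]

theorem Lop_continuousOn {M : Set (Cn n)} {P : Fin n × Bool → Fin n × Bool → Cn n → ℝ}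
    (hP : ∀ a b, ContDiffOn ℝ ∞ (P a b) M) {φ : Cn n → ℝ} (hφ : ContDiff ℝ ∞ φ) :
    ContinuousOn (Lop P φ) M := by
  unfold Lop
  refine continuousOn_finsetSum _ fun a _ => continuousOn_finsetSum _ fun b _ => ?_
  exact (hP a b).continuousOn.mul (dd_contDiff (dd_contDiff hφ b) a).continuous.continuousOn

/-! ## Test functions -/

variable {M : Set (Cn n)}

theorem testF_add {φ ψ : Cn n → ℝ} (hφ : TestF M φ) (hψ : TestF M ψ) : TestF M (φ + ψ) :=
  ⟨hφ.1.add hψ.1, hφ.2.1.add hψ.2.1, (tsupport_add φ ψ).trans (union_subset hφ.2.2 hψ.2.2)⟩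

theorem testF_smul {φ : Cn n → ℝ} (hφ : TestF M φ) (r : ℝ) : TestF M (r • φ) := by
  have h : tsupport (r • φ) ⊆ tsupport φ := closure_mono (by
    intro x hx
    rw [Function.mem_support] at hx ⊢
    intro h0
    exact hx (by simp [h0]))
  exact ⟨hφ.1.const_smul r, hφ.2.1.mono (by
    intro x hx
    rw [Function.mem_support] at hx ⊢
    intro h0
    exact hx (by simp [h0])), h.trans hφ.2.2⟩

theorem testF_zero : TestF M (0 : Cn n → ℝ) := by
  refine ⟨contDiff_const, HasCompactSupport.zero, ?_⟩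
  rw [tsupport_eq_empty_iff.2 rfl]
  exact empty_subset _

theorem testF_sum {ι : Type} (s : Finset ι) (φ : ι → Cn n → ℝ) (h : ∀ i ∈ s, TestF M (φ i)) :
    TestF M (∑ i ∈ s, φ i) := by
  classical
  induction s using Finset.induction_on with
  | empty => rw [Finset.sum_empty]; exact testF_zero
  | insert i s hi ih =>
    rw [Finset.sum_insert hi]
    exact testF_add (h i (by simp)) (ih fun j hj => h j (by simp [hj]))

/-- The product of a test function and a smooth function on `M` is a test function. -/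
theorem testF_mul {χ h : Cn n → ℝ} (hM : IsOpen M) (hχ : TestF M χ) (hh : ContDiffOn ℝ ∞ h M) :
    TestF M (fun y => χ y * h y) := by
  have hsub : tsupport (fun y => χ y * h y) ⊆ tsupport χ := tsupport_mul_subset_left
  refine ⟨contDiff_iff_contDiffAt.2 fun x => ?_, hχ.2.1.mul_right, hsub.trans hχ.2.2⟩
  by_cases hx : x ∈ tsupport χ
  · exact hχ.1.contDiffAt.mul (hh.contDiffAt (hM.mem_nhds (hχ.2.2 hx)))
  · have h1 : (fun y => χ y * h y) =ᶠ[𝓝 x] 0 := by
      filter_upwards [notMem_tsupport_iff_eventuallyEq.1 hx] with y hy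
      simp [hy]
    exact contDiffAt_const.congr_of_eventuallyEq h1

/-- The translate of a test function is a test function. -/
theorem testF_translate {Γ : Type} [Group Γ] {T : Γ → Cn n → Cn n} (hT : GAct M T)
    {ψ : Cn n → ℝ} (hψ : TestF M ψ) (γ : Γ) : TestF M (M.indicator (ψ ∘ T γ)) := by
  have hcomp : IsCompact (T γ⁻¹ '' tsupport ψ) :=
    hψ.2.1.isCompact.image_of_continuousOn ((hT.holo γ⁻¹).continuousOn.mono hψ.2.2)
  have hsubM : T γ⁻¹ '' tsupport ψ ⊆ M := by
    rintro _ ⟨x, hx, rfl⟩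
    exact hT.maps _ _ (hψ.2.2 hx)
  have hzero : ∀ x, x ∉ T γ⁻¹ '' tsupport ψ → M.indicator (ψ ∘ T γ) x = 0 := by
    intro x hx
    by_cases hxM : x ∈ M
    · rw [indicator_of_mem hxM]
      by_contra hne
      apply hx
      exact ⟨T γ x, subset_tsupport _ hne, hT.inv_left γ hxM⟩
    · exact indicator_of_notMem hxM _
  have hsupp : tsupport (M.indicator (ψ ∘ T γ)) ⊆ T γ⁻¹ '' tsupport ψ := by
    refine closure_minimal (fun x hx => ?_) hcomp.isClosed
    by_contra hne
    exact hx (hzero x hne)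
  refine ⟨contDiff_iff_contDiffAt.2 fun x => ?_,
    HasCompactSupport.of_support_subset_isCompact hcomp ((subset_tsupport _).trans hsupp),
    hsupp.trans hsubM⟩
  by_cases hx : x ∈ T γ⁻¹ '' tsupport ψ
  · have hxM := hsubM hx
    have h1 : ContDiffAt ℝ ∞ (ψ ∘ T γ) x :=
      hψ.1.contDiffAt.comp x ((hT.contDiffOn γ).contDiffAt (hT.isOpen.mem_nhds hxM))
    refine h1.congr_of_eventuallyEq ?_
    filter_upwards [hT.isOpen.mem_nhds hxM] with y hy
    exact indicator_of_mem hy _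
  · refine (contDiffAt_const (c := (0 : ℝ))).congr_of_eventuallyEq ?_
    filter_upwards [hcomp.isClosed.isOpen_compl.mem_nhds hx] with y hy
    exact hzero y hy

/-! ## The measure `φ ↦ ∫ u Lφ` -/

section mu

variable {P : Fin n × Bool → Fin n × Bool → Cn n → ℝ} {u : Cn n → ℝ}

theorem integrableOn_mu (hM : IsOpen M) (hP : ∀ a b, ContDiffOn ℝ ∞ (P a b) M)
    (hu : ContinuousOn u M) {φ : Cn n → ℝ} (hφ : TestF M φ) :
    IntegrableOn (fun x => u x * Lop P φ x) M := by
  have h1 : IntegrableOn (fun x => u x * Lop P φ x) (tsupport φ) :=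
    ((hu.mul (Lop_continuousOn hP hφ.1)).mono hφ.2.2).integrableOn_compact hφ.2.1.isCompact
  refine h1.of_forall_sdiff_eq_zero hM.measurableSet ?_
  intro x hx
  show u x * Lop P φ x = 0
  rw [Lop_eq_zero P hx.2, mul_zero]

theorem mu_add (hM : IsOpen M) (hP : ∀ a b, ContDiffOn ℝ ∞ (P a b) M)
    (hu : ContinuousOn u M) {φ ψ : Cn n → ℝ} (hφ : TestF M φ) (hψ : TestF M ψ) :
    ∫ x in M, u x * Lop P (φ + ψ) x =
      (∫ x in M, u x * Lop P φ x) + ∫ x in M, u x * Lop P ψ x := by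
  rw [← integral_add (integrableOn_mu hM hP hu hφ) (integrableOn_mu hM hP hu hψ)]
  refine integral_congr_ae (Eventually.of_forall fun x => ?_)
  show u x * Lop P (φ + ψ) x = u x * Lop P φ x + u x * Lop P ψ x
  rw [Lop_add P hφ.1 hψ.1, mul_add]

theorem mu_smul {φ : Cn n → ℝ} (hφ : TestF M φ) (r : ℝ) :
    ∫ x in M, u x * Lop P (r • φ) x = r * ∫ x in M, u x * Lop P φ x := by
  rw [← integral_const_mul]
  refine integral_congr_ae (Eventually.of_forall fun x => ?_)
  show u x * Lop P (r • φ) x = r * (u x * Lop P φ x)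
  rw [Lop_smul P hφ.1]
  ring

theorem mu_zero : ∫ x in M, u x * Lop P 0 x = 0 := by
  have h : ∀ x, Lop P (0 : Cn n → ℝ) x = 0 := fun x => Lop_eq_zero P (by
    rw [tsupport_eq_empty_iff.2 rfl]
    exact notMem_empty x)
  simp [h]

theorem mu_sum (hM : IsOpen M) (hP : ∀ a b, ContDiffOn ℝ ∞ (P a b) M)
    (hu : ContinuousOn u M) {ι : Type} (s : Finset ι) (φ : ι → Cn n → ℝ)
    (h : ∀ i ∈ s, TestF M (φ i)) :
    ∫ x in M, u x * Lop P (∑ i ∈ s, φ i) x = ∑ i ∈ s, ∫ x in M, u x * Lop P (φ i) x := by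
  classical
  induction s using Finset.induction_on with
  | empty => rw [Finset.sum_empty, Finset.sum_empty]; exact mu_zero
  | insert i s hi ih =>
    rw [Finset.sum_insert hi, Finset.sum_insert hi,
      mu_add hM hP hu (h i (by simp)) (testF_sum s φ fun j hj => h j (by simp [hj])),
      ih fun j hj => h j (by simp [hj])]

end mu

/-- Packet MDOM. -/
theorem mdom : S_POS → S_CHV → S_MDOM := by
  intro hpos hchv n M Γ _ T P χ hE hχ ρ c hρ hρc F hFc hF0 hFe hF φ hφ hφ0
  have hM : IsOpen M := hE.act.isOpen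
  have hP := hE.smooth
  -- bounds
  obtain ⟨R, hR⟩ := hχ.test.2.1.isCompact.exists_bound_of_continuousOn
    (hρ.continuousOn.mono hχ.test.2.2)
  obtain ⟨B, hB⟩ := hφ.2.1.exists_bound_of_continuous hφ.1.continuous
  have hB0 : 0 ≤ B := (norm_nonneg _).trans (hB 0)
  set S := (hχ.fin (tsupport φ) hφ.2.2 hφ.2.1.isCompact).toFinset with hS
  have hR0 : ∀ y ∈ tsupport χ, |ρ y| ≤ R := fun y hy => by
    simpa using hR y hy
  refine ⟨B * Real.exp R * ∑ γ ∈ S, Real.exp |c γ|, by positivity, fun s hs hs1 => ?_⟩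
  set u : Cn n → ℝ := fun x => F x ^ s with hu
  have huc : ContinuousOn u M := hFc.rpow_const fun x _ => Or.inr hs.le
  have hupsh : PshOn u M := hF s hs hs1
  set χs : Cn n → ℝ := fun y => χ y * Real.exp (-s * ρ y) with hχs
  have hχsT : TestF M χs := testF_mul hM hχ.test
    (Real.contDiff_exp.comp_contDiffOn (contDiffOn_const.mul hρ))
  have hχs0 : ∀ y, 0 ≤ χs y := fun y => mul_nonneg (hχ.nonneg y) (Real.exp_nonneg _)
  have hμ0 : 0 ≤ ∫ x in M, u x * Lop P χs x := hpos hE u huc hupsh χs hχsT hχs0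
  -- monotonicity
  have hmono : ∀ φ₁ φ₂, TestF M φ₁ → TestF M φ₂ → (∀ x, φ₁ x ≤ φ₂ x) →
      ∫ x in M, u x * Lop P φ₁ x ≤ ∫ x in M, u x * Lop P φ₂ x := by
    intro φ₁ φ₂ h1 h2 h12
    have h3 := hpos hE u huc hupsh (φ₂ + (-1 : ℝ) • φ₁) (testF_add h2 (testF_smul h1 _)) (fun x => by
      simp only [Pi.add_apply, Pi.smul_apply, smul_eq_mul]
      linarith [h12 x])
    rw [mu_add hM hP huc h2 (testF_smul h1 _), mu_smul h1] at h3
    linarith
  -- translates
  set tr : Γ → Cn n → ℝ := fun γ => M.indicator (χs ∘ T γ) with htr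
  have htrT : ∀ γ, TestF M (tr γ) := fun γ => testF_translate hE.act hχsT γ
  have hμtr : ∀ γ, ∫ x in M, u x * Lop P (tr γ) x =
      Real.exp (-s * c γ) * ∫ x in M, u x * Lop P χs x := by
    intro γ
    rw [← hchv hE.act (fun x => u x * Lop P χs x) γ, ← integral_const_mul]
    refine setIntegral_congr_fun hM.measurableSet fun x hx => ?_
    have h1 : Lop P (tr γ) x = Lop P (χs ∘ T γ) x := Lop_congr P (by
      filter_upwards [hM.mem_nhds hx] with y hy
      exact indicator_of_mem hy _)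
    have h2 := hE.nat γ χs hχsT.1.contDiffOn x hx
    have h3 : u (T γ x) = Real.exp (s * c γ) * u x := by
      simp only [hu]
      rw [hFe γ x hx, Real.mul_rpow (Real.exp_nonneg _) (hF0 x hx), ← Real.exp_mul, mul_comm (c γ)]
    have h4 : Real.exp (-s * c γ) * Real.exp (s * c γ) = 1 := by
      rw [← Real.exp_add]
      simp
    show u x * Lop P (tr γ) x =
      Real.exp (-s * c γ) * (Jac T γ x * (u (T γ x) * Lop P χs (T γ x)))
    rw [h1, h2, h3]
    linear_combination (-(u x * Jac T γ x * Lop P χs (T γ x))) * h4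
  -- domination
  have hdom : ∀ x, φ x ≤ ((B * Real.exp R) • ∑ γ ∈ S, tr γ) x := by
    intro x
    have htr0 : ∀ γ, 0 ≤ tr γ x := fun γ => indicator_nonneg (fun y _ => hχs0 _) x
    simp only [Pi.smul_apply, Finset.sum_apply, smul_eq_mul]
    by_cases hx : x ∈ tsupport φ
    · have hxM := hφ.2.2 hx
      have h1 : ∑ γ ∈ S, χ (T γ x) = 1 := by
        rw [← hχ.sum x hxM]
        refine (finsum_eq_sum_of_support_subset _ ?_).symm
        intro γ hγ
        rw [hS, Set.Finite.coe_toFinset]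
        exact ⟨x, hx, subset_tsupport _ hγ⟩
      have h2 : ∀ γ ∈ S, Real.exp (-R) * χ (T γ x) ≤ tr γ x := by
        intro γ _
        rw [htr]
        show _ ≤ M.indicator (χs ∘ T γ) x
        rw [indicator_of_mem hxM]
        show _ ≤ χ (T γ x) * Real.exp (-s * ρ (T γ x))
        rw [mul_comm]
        by_cases h3 : T γ x ∈ tsupport χ
        · refine mul_le_mul_of_nonneg_left (Real.exp_le_exp.2 ?_) (hχ.nonneg _)
          have h4 := hR0 _ h3
          have h5 : s * ρ (T γ x) ≤ R := by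
            calc s * ρ (T γ x) ≤ |s * ρ (T γ x)| := le_abs_self _
              _ = s * |ρ (T γ x)| := by rw [abs_mul, abs_of_pos hs]
              _ ≤ 1 * |ρ (T γ x)| := mul_le_mul_of_nonneg_right hs1 (abs_nonneg _)
              _ ≤ R := by rw [one_mul]; exact h4
          linarith
        · rw [image_eq_zero_of_notMem_tsupport h3]
          simp
      have h3 : Real.exp (-R) ≤ ∑ γ ∈ S, tr γ x := by
        calc Real.exp (-R) = ∑ γ ∈ S, Real.exp (-R) * χ (T γ x) := by
              rw [← Finset.mul_sum, h1, mul_one]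
          _ ≤ _ := Finset.sum_le_sum h2
      calc φ x ≤ B := (le_abs_self _).trans (by simpa using hB x)
        _ = B * Real.exp R * Real.exp (-R) := by
            rw [mul_assoc, ← Real.exp_add, add_neg_cancel, Real.exp_zero, mul_one]
        _ ≤ _ := mul_le_mul_of_nonneg_left h3 (by positivity)
    · rw [image_eq_zero_of_notMem_tsupport hx]
      exact mul_nonneg (by positivity) (Finset.sum_nonneg fun γ _ => htr0 γ)
  have hsumT : TestF M (∑ γ ∈ S, tr γ) := testF_sum S tr fun γ _ => htrT γ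
  calc ∫ x in M, u x * Lop P φ x
      ≤ ∫ x in M, u x * Lop P ((B * Real.exp R) • ∑ γ ∈ S, tr γ) x :=
        hmono _ _ hφ (testF_smul hsumT _) hdom
    _ = B * Real.exp R * ∑ γ ∈ S, Real.exp (-s * c γ) * ∫ x in M, u x * Lop P χs x := by
        rw [mu_smul hsumT, mu_sum hM hP huc S tr fun γ _ => htrT γ]
        simp only [hμtr]
    _ = B * Real.exp R * (∑ γ ∈ S, Real.exp (-s * c γ)) * ∫ x in M, u x * Lop P χs x := by
        rw [← Finset.sum_mul]
        ring
    _ ≤ B * Real.exp R * (∑ γ ∈ S, Real.exp |c γ|) * ∫ x in M, u x * Lop P χs x := by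
        refine mul_le_mul_of_nonneg_right (mul_le_mul_of_nonneg_left
          (Finset.sum_le_sum fun γ _ => Real.exp_le_exp.2 ?_) (by positivity)) hμ0
        calc -s * c γ ≤ |-s * c γ| := le_abs_self _
          _ = s * |c γ| := by rw [abs_mul, abs_neg, abs_of_pos hs]
          _ ≤ 1 * |c γ| := mul_le_mul_of_nonneg_right hs1 (abs_nonneg _)
          _ = |c γ| := one_mul _

end Pool.Agent.Helper36.Lin
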