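import Pool.Agent.Helper36.Lin.Dfl

/-! # Packet PSI -/

open Complex Metric Set Filter Topology MeasureTheory
open scoped ContDiff ComplexConjugate ComplexOrder

namespace Pool.Agent.Helper36.Lin

open Pool.Agent.Helper95.Lin

/-- Packet PSI. -/
theorem psi : S_PSI := by
  intro b D hD V φ hV hφ J hJ η hη ζ hζ
  have hev : ∀ᶠ v in 𝓝 ((ζ.re, ζ.im) : ℝ × ℝ), v.2 ∈ J :=
    continuous_snd.continuousAt.eventually_mem (hJ.mem_nhds hζ)
  have hcont : ContinuousAt (fun v : ℝ × ℝ => V (φ v.1 (η v.2))) (ζ.re, ζ.im) := by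
    have hηc : ContinuousAt η ζ.im := (hη _ hζ).2.continuousAt
    have h1 : ContinuousAt (fun v : ℝ × ℝ => (v.1, η v.2)) (ζ.re, ζ.im) :=
      continuousAt_fst.prodMk (ContinuousAt.comp (g := η) (f := Prod.snd) hηc continuousAt_snd)
    have h2 : ContinuousAt (fun p : ℝ × Cn b => φ p.1 p.2) (ζ.re, η ζ.im) :=
      hφ.cont.continuousAt (prod_mem_nhds univ_mem (hD.mem_nhds (hη _ hζ).1))
    have h3 : ContinuousAt V (φ ζ.re (η ζ.im)) := by
      have := hφ.maps ζ.re _ (hη _ hζ).1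
      exact (hV.continuousOn).continuousAt (hD.mem_nhds this)
    have h4 : ContinuousAt (fun v : ℝ × ℝ => φ v.1 (η v.2)) (ζ.re, ζ.im) :=
      ContinuousAt.comp (g := fun p : ℝ × Cn b => φ p.1 p.2)
        (f := fun v : ℝ × ℝ => (v.1, η v.2)) (x := (ζ.re, ζ.im)) h2 h1
    exact ContinuousAt.comp (g := V) (f := fun v : ℝ × ℝ => φ v.1 (η v.2))
      (x := (ζ.re, ζ.im)) h3 h4
  have hmain := hasStrictFDerivAt_uncurry_coprod (𝕜 := ℝ) (u := ((ζ.re, ζ.im) : ℝ × ℝ))
    (f := fun s t => φ s (η t))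
    (f₁ := fun s t => ContinuousLinearMap.toSpanSingleton ℝ (V (φ s (η t))))
    (f₂ := fun s t => ContinuousLinearMap.toSpanSingleton ℝ (I • V (φ s (η t))))
    (hev.mono fun v hv => (hφ.ode _ (hη _ hv).1 v.1).hasFDerivAt)
    (hev.mono fun v hv => by
      obtain ⟨h1, h2⟩ := hη _ hv
      have h3 : HasFDerivAt (φ v.1) (fderiv ℂ (φ v.1) (η v.2)) (η v.2) :=
        ((hφ.holo v.1 _ h1).differentiableAt (hD.mem_nhds h1)).hasFDerivAt
      have h4 := (h3.restrictScalars ℝ).comp_hasDerivAt v.2 h2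
      have h5 : fderiv ℂ (φ v.1) (η v.2) (I • V (η v.2)) = I • V (φ v.1 (η v.2)) := by
        rw [map_smul, ← dfl D hD V V φ hV hV hφ (fun z _ => by simp [brV]) v.1 _ h1]
      have h6 : HasDerivAt (fun t => φ v.1 (η t)) (I • V (φ v.1 (η v.2))) v.2 := by
        rw [← h5]
        exact h4
      exact h6.hasFDerivAt)
    (by
      have : Continuous fun w : Cn b => ContinuousLinearMap.toSpanSingleton ℝ w := by
        exact (ContinuousLinearMap.toSpanSingletonLIE ℝ (Cn b)).continuous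
      exact this.continuousAt.comp hcont)
    (by
      have : Continuous fun w : Cn b => ContinuousLinearMap.toSpanSingleton ℝ (I • w) := by
        exact (ContinuousLinearMap.toSpanSingletonLIE ℝ (Cn b)).continuous.comp
          (continuous_const_smul I)
      exact this.continuousAt.comp hcont)
  have h1 := hmain.hasFDerivAt
  have h2 : HasFDerivAt (fun ζ : ℂ => ((ζ.re, ζ.im) : ℝ × ℝ))
      (Complex.reCLM.prod Complex.imCLM) ζ := (Complex.reCLM.prod Complex.imCLM).hasFDerivAt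
  have h3 := h1.comp ζ h2
  have h4 : HasFDerivAt (fun ζ : ℂ => φ ζ.re (η ζ.im))
      (ContinuousLinearMap.toSpanSingleton ℂ (V (φ ζ.re (η ζ.im)))) ζ := by
    refine hasFDerivAt_of_restrictScalars ℝ h3 ?_
    refine ContinuousLinearMap.ext fun w => ?_
    show w • V (φ ζ.re (η ζ.im)) =
      w.re • V (φ ζ.re (η ζ.im)) + w.im • (I • V (φ ζ.re (η ζ.im)))
    conv_lhs => rw [← Complex.re_add_im w]
    rw [add_smul, mul_smul, Complex.coe_smul, Complex.coe_smul]
  simpa using h4.hasDerivAt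

end Pool.Agent.Helper36.Lin
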