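import Pool.Agent.Helper95.Lin.GoalsA
import Pool.Agent.Helper95.Lin.Basics

/-! # Packet STAY -/

open Complex Metric Set Filter Topology MeasureTheory
open scoped ContDiff ComplexConjugate ComplexOrder

namespace Pool.Agent.Helper36.Lin

open Pool.Agent.Helper95.Lin

/-- Chains of `n` steps of size at most `δ` in `D`. -/
inductive Rch {b : ℕ} (D : Set (Cn b)) (δ : ℝ) : ℕ → Cn b → Cn b → Prop
  | zero {x : Cn b} : x ∈ D → Rch D δ 0 x x
  | succ {n : ℕ} {x p y : Cn b} : Rch D δ n x p → CLe D δ p y → y ∈ D → Rch D δ (n + 1) x y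

variable {b : ℕ} {D : Set (Cn b)} {δ : ℝ}

theorem Rch.right {n : ℕ} {x y : Cn b} (h : Rch D δ n x y) : y ∈ D := by
  cases h with
  | zero h => exact h
  | succ _ _ h => exact h

theorem Rch.step (hδ : 0 ≤ δ) {n : ℕ} {x y : Cn b} (h : Rch D δ n x y) : Rch D δ (n + 1) x y :=
  Rch.succ h (CLe.refl hδ y) h.right

theorem Rch.trans {n m : ℕ} {x y z : Cn b} (h : Rch D δ n x y) (h' : Rch D δ m y z) :
    Rch D δ (n + m) x z := by
  induction h' with
  | zero _ => exact h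
  | succ _ h2 h3 ih => exact Rch.succ (ih h) h2 h3

theorem Rch.symm {n : ℕ} {x y : Cn b} (h : Rch D δ n x y) : Rch D δ n y x := by
  induction h with
  | zero h => exact Rch.zero h
  | @succ n x p y h1 h2 h3 ih =>
    have h4 : Rch D δ 1 y p := Rch.succ (Rch.zero h3) h2.symm h1.right
    have h5 := h4.trans ih
    rwa [add_comm] at h5

theorem Rch.map {Γ : Type} [Group Γ] {g : Γ → Cn b → Cn b} (hg : GAct D g) {n : ℕ} {x y : Cn b}
    (h : Rch D δ n x y) (γ : Γ) : Rch D δ n (g γ x) (g γ y) := by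
  induction h with
  | zero h => exact Rch.zero (hg.maps γ _ h)
  | succ _ h2 h3 ih => exact Rch.succ ih (CLe.act hg h2 γ) (hg.maps γ _ h3)

/-- Every point has a neighbourhood of points at distance at most `δ`. -/
theorem exists_ball (hcle : S_CLEUP) (hD : IsOpen D) (hδ : 0 < δ) {y : Cn b} (hy : y ∈ D) :
    ∃ r > 0, ∀ p ∈ ball y r, p ∈ D ∧ CLe D δ y p := by
  obtain ⟨C, ρ, hC, hρ, h⟩ := hcle D hD {y} (by simpa using hy) isCompact_singleton
  refine ⟨min ρ (δ / (C + 1)), by positivity, fun p hp => ?_⟩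
  rw [mem_ball, dist_comm, dist_eq_norm] at hp
  obtain ⟨h1, h2⟩ := h y rfl p (hp.le.trans (min_le_left _ _))
  refine ⟨h1, h2.mono ?_⟩
  have h3 : ‖y - p‖ ≤ δ / (C + 1) := hp.le.trans (min_le_right _ _)
  rw [le_div_iff₀ (by positivity)] at h3
  nlinarith [norm_nonneg (y - p)]

/-- Packet STAY. -/
theorem stay : S_CLEUP → S_NEAR → S_STAY := by
  intro hcle hnear b D Γ _ g hg K hKD hK
  obtain ⟨δ, hδ, hδK⟩ := hnear hg
  have hDo := hg.dom.isOpen
  obtain ⟨x₀, hx₀⟩ := hg.dom.conn.nonempty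
  -- all points are reachable
  set S : Set (Cn b) := {y | ∃ n, Rch D δ n x₀ y} with hS
  have hSopen : IsOpen S := by
    rw [Metric.isOpen_iff]
    rintro y ⟨n, hn⟩
    obtain ⟨r, hr, hr'⟩ := exists_ball hcle hDo hδ hn.right
    exact ⟨r, hr, fun p hp => ⟨n + 1, Rch.succ hn (hr' p hp).2 (hr' p hp).1⟩⟩
  have hall : D ⊆ S := by
    refine hg.dom.conn.isPreconnected.subset_of_closure_inter_subset hSopen
      ⟨x₀, hx₀, 0, Rch.zero hx₀⟩ ?_
    rintro y ⟨hy1, hy2⟩
    obtain ⟨r, hr, hr'⟩ := exists_ball hcle hDo hδ hy2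
    obtain ⟨p, ⟨n, hn⟩, hp⟩ := Metric.mem_closure_iff.1 hy1 r hr
    exact ⟨n + 1, Rch.succ hn (hr' p (by rwa [mem_ball, dist_comm])).2.symm hy2⟩
  -- uniformly on `K`
  obtain ⟨N, hN⟩ : ∃ N, K ⊆ interior {y | Rch D δ N x₀ y} := by
    refine hK.elim_directed_cover (fun n => interior {y | Rch D δ n x₀ y})
      (fun n => isOpen_interior) ?_ ?_
    · intro y hy
      obtain ⟨n, hn⟩ := hall (hKD hy)
      obtain ⟨r, hr, hr'⟩ := exists_ball hcle hDo hδ hn.right
      refine mem_iUnion.2 ⟨n + 1, mem_interior.2 ⟨ball y r, ?_, isOpen_ball, mem_ball_self hr⟩⟩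
      exact fun p hp => Rch.succ hn (hr' p hp).2 (hr' p hp).1
    · apply directed_of_isDirected_le
      apply monotone_nat_of_le_succ
      intro n
      exact interior_mono fun y hy => Rch.step hδ.le hy
  -- compact sets containing all points reachable from `K`
  have hcomp : ∀ n, ∃ K' ⊆ D, IsCompact K' ∧ ∀ x ∈ K, ∀ y, Rch D δ n x y → y ∈ K' := by
    intro n
    induction n with
    | zero =>
      refine ⟨K, hKD, hK, fun x hx y h => ?_⟩
      cases h with
      | zero _ => exact hx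
    | succ n ih =>
      obtain ⟨K₁, h1, h2, h3⟩ := ih
      obtain ⟨K₂, h4, h5, h6⟩ := hδK K₁ h1 h2
      refine ⟨K₂, h4, h5, fun x hx y h => ?_⟩
      cases h with
      | succ h7 h8 h9 => exact h6 _ (h3 x hx _ h7) y h9 h8
  obtain ⟨K', h1, h2, h3⟩ := hcomp (N + N)
  refine ⟨K', h1, h2, ?_⟩
  rintro γ ⟨z, hz, hγz⟩ y hy
  have h4 : Rch D δ N x₀ z := interior_subset (hN hz)
  have h5 : Rch D δ N x₀ y := interior_subset (hN hy)
  exact h3 _ hγz _ ((h4.symm.trans h5).map hg.act γ)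

end Pool.Agent.Helper36.Lin
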