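import Pool.Agent.Helper36.Lin.Stay

/-! # Packet STEPS -/

open Complex Metric Set Filter Topology MeasureTheory
open scoped ContDiff ComplexConjugate ComplexOrder

namespace Pool.Agent.Helper36.Lin

open Pool.Agent.Helper95.Lin

variable {b : ℕ} {D : Set (Cn b)} {δ : ℝ}

theorem Rch.mono (hδ : 0 ≤ δ) {n m : ℕ} (hnm : n ≤ m) {x y : Cn b} (h : Rch D δ n x y) :
    Rch D δ m x y := by
  induction m, hnm using Nat.le_induction with
  | base => exact h
  | succ m _ ih => exact ih.step hδ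

/-- The points reachable from a compact set by chains of bounded length form a relatively compact
set. -/
theorem exists_compact_rch
    (hδK : ∀ K ⊆ D, IsCompact K → ∃ K' ⊆ D, IsCompact K' ∧ ∀ x ∈ K, ∀ y ∈ D, CLe D δ x y → y ∈ K')
    {K : Set (Cn b)} (hKD : K ⊆ D) (hK : IsCompact K) (n : ℕ) :
    ∃ K' ⊆ D, IsCompact K' ∧ ∀ x ∈ K, ∀ y, Rch D δ n x y → y ∈ K' := by
  induction n with
  | zero =>
    refine ⟨K, hKD, hK, fun x hx y h => ?_⟩
    cases h with
    | zero _ => exact hx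
  | succ n ih =>
    obtain ⟨K₁, h1, h2, h3⟩ := ih
    obtain ⟨K₂, h4, h5, h6⟩ := hδK K₁ h1 h2
    refine ⟨K₂, h4, h5, fun x hx y h => ?_⟩
    cases h with
    | succ h7 h8 h9 => exact h6 _ (h3 x hx _ h7) y h9 h8

/-- Packet STEPS. -/
theorem steps : S_CLEUP → S_NEAR → S_STEPS := by
  intro hcle hnear b D Γ _ g hg K hKD hK T
  obtain ⟨δ, hδ, hδK⟩ := hnear hg
  obtain ⟨C, ρ, hC, hρ, hCρ⟩ := hcle D hg.dom.isOpen K hKD hK
  set C' := max C 1 with hC'
  have hC'1 : 1 ≤ C' := le_max_right _ _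
  have hC'0 : 0 < C' := by linarith
  obtain ⟨K', h1, h2, h3⟩ := exists_compact_rch hδK hKD hK (⌈2 * C' * T / δ⌉₊ + 1)
  refine ⟨K', h1, h2, min ρ (δ / C'), by positivity, ?_⟩
  intro γ τ hτ hτ₀ z hz hγz j hj
  have hτρ : τ ≤ ρ := hτ₀.trans (min_le_left _ _)
  have hτδ : C' * τ ≤ δ := by
    have := hτ₀.trans (min_le_right _ _)
    rw [le_div_iff₀ hC'0] at this
    linarith
  have hzD := hKD hz
  -- one step
  have hstep : CLe D (C' * τ) z (g γ z) := by
    rw [norm_sub_rev] at hγz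
    refine (hCρ z hz (g γ z) (hγz.trans hτρ)).2.mono ?_
    exact mul_le_mul (le_max_left _ _) hγz (norm_nonneg _) hC'0.le
  have hmem : ∀ i : ℕ, g (γ ^ i) z ∈ D := fun i => hg.act.maps _ _ hzD
  have hsteps : ∀ i k : ℕ, CLe D (k * (C' * τ)) (g (γ ^ i) z) (g (γ ^ (i + k)) z) := by
    intro i k
    induction k with
    | zero => simpa using CLe.refl le_rfl _
    | succ k ih =>
      have h4 := CLe.act hg.act hstep (γ ^ (i + k))
      rw [← hg.act.mul _ _ _ hzD, ← pow_succ] at h4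
      have h5 := ih.trans h4
      push_cast
      rw [add_mul, one_mul]
      exact h5
  -- blocks
  set q := ⌊δ / (C' * τ)⌋₊ with hq
  have hCτ : 0 < C' * τ := by positivity
  have hx1 : 1 ≤ δ / (C' * τ) := by rwa [le_div_iff₀ hCτ, one_mul]
  have hq1 : 1 ≤ q := Nat.le_floor (by simpa using hx1)
  have hqle : (q : ℝ) * (C' * τ) ≤ δ := by
    have := Nat.floor_le (show 0 ≤ δ / (C' * τ) by positivity)
    rwa [← hq, le_div_iff₀ hCτ] at this
  have hqge : δ ≤ 2 * q * (C' * τ) := by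
    have h4 := Nat.lt_floor_add_one (δ / (C' * τ))
    rw [← hq] at h4
    have h5 : (1 : ℝ) ≤ q := by exact_mod_cast hq1
    have h6 : δ / (C' * τ) ≤ 2 * q := by linarith
    rwa [div_le_iff₀ hCτ] at h6
  have hblock : ∀ i : ℕ, Rch D δ i z (g (γ ^ (i * q)) z) := by
    intro i
    induction i with
    | zero =>
      rw [zero_mul, pow_zero, hg.act.one z hzD]
      exact Rch.zero hzD
    | succ i ih =>
      rw [add_mul, one_mul]
      exact Rch.succ ih ((hsteps (i * q) q).mono hqle) (hmem _)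
  have hj2 : j / q * q + j % q = j := Nat.div_add_mod' j q
  have hreach : Rch D δ (j / q + 1) z (g (γ ^ j) z) := by
    have h4 := hsteps (j / q * q) (j % q)
    rw [hj2] at h4
    refine Rch.succ (hblock (j / q)) (h4.mono ?_) (hmem _)
    have h5 : ((j % q : ℕ) : ℝ) ≤ q := by exact_mod_cast (Nat.mod_lt j hq1).le
    exact (mul_le_mul_of_nonneg_right h5 hCτ.le).trans hqle
  refine h3 z hz _ (hreach.mono hδ.le ?_)
  have h6 : ((j / q : ℕ) : ℝ) ≤ 2 * C' * T / δ := by
    rw [le_div_iff₀ hδ]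
    have h7 : ((j / q : ℕ) : ℝ) * q ≤ j := by exact_mod_cast Nat.div_mul_le_self j q
    have h8 : (0 : ℝ) ≤ ((j / q : ℕ) : ℝ) := Nat.cast_nonneg _
    calc ((j / q : ℕ) : ℝ) * δ ≤ ((j / q : ℕ) : ℝ) * (2 * q * (C' * τ)) :=
          mul_le_mul_of_nonneg_left hqge h8
      _ = 2 * C' * (((j / q : ℕ) : ℝ) * q) * τ := by ring
      _ ≤ 2 * C' * j * τ := by gcongr
      _ = 2 * C' * (j * τ) := by ring
      _ ≤ 2 * C' * T := by gcongr
  have h7 : j / q ≤ ⌈2 * C' * T / δ⌉₊ := by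
    have := h6.trans (Nat.le_ceil _)
    exact_mod_cast this
  omega

end Pool.Agent.Helper36.Lin
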